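import Pool.Agent.Helper74.RN.St

/-! Project RN (MP_26f0da_lc): module OPF (mandatory negative letters and counting). -/

set_option autoImplicit false

namespace Pool.Agent.Helper99.RN

open Pool.Agent.Helper74 Pool.Agent.Helper74.RN
open Pool.Agent.Helper74.WB (OP QW rl enc iv)

variable {Λ : Type}

private theorem ng_cons (a : (Λ × Bool) × Bool) (v : List ((Λ × Bool) × Bool)) :
    ng (a :: v) = ng v + (if a.1.2 then 0 else 1) := by
  unfold ng
  rw [List.countP_cons]
  cases h : a.1.2 <;> simp

private theorem ng_append (u v : List ((Λ × Bool) × Bool)) : ng (u ++ v) = ng u + ng v := by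
  unfold ng
  exact List.countP_append

private theorem ng_wrap (x : Λ × Bool) (o o' : Bool) (u v : List ((Λ × Bool) × Bool)) :
    ng ((x, o) :: (u ++ (iv x, o') :: v)) = ng u + ng v + 1 := by
  rw [ng_cons, ng_append, ng_cons]
  cases h : x.2 <;> simp [iv, h] <;> omega

private theorem forward (v : List ((Λ × Bool) × Bool)) (hq : QW v) (h : OP v) :
    ∃ k, Fo (fun a b : Λ × Bool => b = iv a) (v.map Prod.fst) k ∧ k + 2 * ng v = v.length := by
  induction h with
  | nil => exact ⟨0, Fo.nil, by simp [ng]⟩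
  | skip x w _ ih =>
    obtain ⟨k, h1, h2⟩ := ih (fun a ha => hq a (by simp [ha]))
    have hx : true = x.2 := hq (x, true) (by simp)
    refine ⟨k + 1, Fo.skip x _ k h1, ?_⟩
    rw [ng_cons, List.length_cons, ← h2]
    simp only [← hx, if_true]
    omega
  | wrap x o o' u v _ _ ihu ihv =>
    obtain ⟨j, h1, h2⟩ := ihu (fun a ha => hq a (by simp [ha]))
    obtain ⟨k, h3, h4⟩ := ihv (fun a ha => hq a (by simp [ha]))
    refine ⟨j + k, ?_, ?_⟩
    · have h5 := Fo.wrap (R := fun a b : Λ × Bool => b = iv a) x (iv x) (u.map Prod.fst)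
        (v.map Prod.fst) j k rfl h1 h3
      simpa using h5
    · rw [ng_wrap, List.length_cons, List.length_append, List.length_cons]
      omega

private theorem backward (z : List (Λ × Bool)) (k : ℕ)
    (h : Fo (fun a b : Λ × Bool => b = iv a) z k) :
    ∀ v : List ((Λ × Bool) × Bool), v.map Prod.fst = z → QW v →
      v.length ≤ k + 2 * ng v ∧ (v.length = k + 2 * ng v → OP v) := by
  induction h with
  | nil =>
    intro v hv _
    have : v = [] := List.map_eq_nil_iff.1 hv
    subst this
    exact ⟨by simp, fun _ => OP.nil⟩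
  | skip x z k _ ih =>
    intro v hv hq
    obtain ⟨⟨y, o⟩, v', rfl, h1, h2⟩ := List.map_eq_cons_iff.1 hv
    simp only at h1
    subst h1
    obtain ⟨h3, h4⟩ := ih v' h2 (fun a ha => hq a (by simp [ha]))
    have ho : o = y.2 := hq (y, o) (by simp)
    rw [ng_cons, List.length_cons]
    cases hy : y.2
    · simp only [Bool.false_eq_true, if_false]
      exact ⟨by omega, fun h => by omega⟩
    · simp only [if_true]
      refine ⟨by omega, fun h => ?_⟩
      rw [ho, hy]
      exact OP.skip y v' (h4 (by omega))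
  | wrap x y p q i j hxy _ _ ihp ihq =>
    intro v hv hq
    obtain ⟨⟨x', o⟩, v', rfl, h1, h2⟩ := List.map_eq_cons_iff.1 hv
    simp only at h1
    subst h1
    obtain ⟨v₁, v₂', rfl, h3, h4⟩ := List.map_eq_append_iff.1 h2
    obtain ⟨⟨y', o'⟩, v₂, rfl, h5, h6⟩ := List.map_eq_cons_iff.1 h4
    simp only at h5
    subst h5
    subst hxy
    obtain ⟨h7, h8⟩ := ihp v₁ h3 (fun a ha => hq a (by simp [ha]))
    obtain ⟨h9, h10⟩ := ihq v₂ h6 (fun a ha => hq a (by simp [ha]))
    rw [ng_wrap, List.length_cons, List.length_append, List.length_cons]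
    refine ⟨by omega, fun h => ?_⟩
    exact OP.wrap x' o o' v₁ v₂ (h8 (by omega)) (h10 (by omega))

/-- MODULE OPF. -/
theorem hOPF : Pool.Agent.Helper74.RN.StOPF := by
  intro Λ v hq
  constructor
  · intro h
    obtain ⟨k, h1, h2⟩ := forward v hq h
    exact ⟨k, h1, h2.le⟩
  · rintro ⟨k, h1, h2⟩
    obtain ⟨h3, h4⟩ := backward _ k h1 v rfl hq
    exact h4 (le_antisymm h3 h2)

end Pool.Agent.Helper99.RN
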